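import Mathlib

set_option autoImplicit false

/-!
# Deterministic partially blind versus deterministic counter machines, bounded reversals

For every `c ≥ 1` the class `L_{Rc}(QR-DPBLIND)` is a proper subclass of `L_{Rc}(QR-DCOUNTER)`; for
`c = 0` the two classes coincide.  So the equality of the two classes holds only for `c = 0`.

The separating language is `L = {a^n b^m : n ≤ m}`.  A deterministic realtime machine with one
counter and one reversal counts the letters `a` up and the letters `b` down, and when it finds the
counter empty it reads the remaining letters `b` in a new state.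

Let `M` be a deterministic quasi-realtime partially blind machine with `L = L_{Rc}(M)`.  Let `x_n`
be the configuration of `M` (together with the number of reversals and the directions of the
counters so far) on its first arrival at the position `n` of `a^n b^m`, `m ≥ n`.  By Dickson's
lemma there is an infinite set of indices `n` on which everything but the counter values is constant
and the counter values are monotone.  If two of these configurations are equal, for `n < n'`,
then `a^n b^n` and `a^n' b^n` are accepted with the same number of reversals, a contradiction.  So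
there are `n < n'` such that the counters of `x_n'` are at least those of `x_n`, and some counter
is larger by more than the bound `d` on the length of the stretches without head move.  Since `M`
is partially blind and deterministic, from `x_n'` it makes on `b^n'` the same moves as from `x_n`,
until the latter run accepts.  Then a counter with value more than `d` would have to be emptied in
at most `d` steps at the end of the input.
-/

namespace Pool.Agent.Results.MP_24384b_lc.BlindCounters

/-- A one-way (nondeterministic) multicounter machine over the input alphabet `A`: a finite set `S`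
of states, `k` counters, an initial state, final states and a transition table.  The set of
possible moves depends on the state, on the scanned symbol (`none` at the end of the input) and on
the information which counters are zero (`true` for zero).  A move `(s', h, δ)` consists of the next
state `s'`, of `h : Bool` telling whether the head moves one cell to the right, and of the changes
`δ j ∈ {-1, 0, 1}` of the counters. -/
structure Machine (A : Type) where
  S : Type
  [fintypeS : Fintype S]
  k : ℕ
  start : S
  final : Set S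
  moves : S → Option A → (Fin k → Bool) → Set (S × Bool × (Fin k → SignType))

variable {A : Type}

/-- The type of the moves of a machine. -/
abbrev Machine.Move (M : Machine A) : Type := M.S × Bool × (Fin M.k → SignType)

/-- A configuration: state, position of the head, values of the counters. -/
structure Config (M : Machine A) where
  state : M.S
  pos : ℕ
  cnt : Fin M.k → ℕ

/-- The move `mv` is possible in state `s` when `x` is scanned and the counters are `v`: it is in
the table, it makes no counter negative, and the head does not move beyond the end of the input. -/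
def Possible (M : Machine A) (s : M.S) (x : Option A) (v : Fin M.k → ℕ) (mv : M.Move) : Prop :=
  mv ∈ M.moves s x (fun j => decide (v j = 0)) ∧ (x = none → mv.2.1 = false) ∧
    ∀ j, 0 ≤ (v j : ℤ) + (mv.2.2 j : ℤ)

/-- One step on the input `w`. -/
def Step (M : Machine A) (w : List A) (c : Config M) (mv : M.Move) (c' : Config M) : Prop :=
  Possible M c.state w[c.pos]? c.cnt mv ∧ c'.state = mv.1 ∧
    c'.pos = c.pos + (if mv.2.1 then 1 else 0) ∧ ∀ j, (c'.cnt j : ℤ) = c.cnt j + (mv.2.2 j : ℤ)

/-- A computation on the input `w`, with the list of its moves. -/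
inductive Run (M : Machine A) (w : List A) : Config M → List M.Move → Config M → Prop
  | nil (c : Config M) : Run M w c [] c
  | cons {c c' c'' : Config M} {mv : M.Move} {ms : List M.Move} :
      Step M w c mv c' → Run M w c' ms c'' → Run M w c (mv :: ms) c''

/-- The initial configuration. -/
def init (M : Machine A) : Config M := ⟨M.start, 0, fun _ => 0⟩

/-- Number of places where two consecutive members of a list differ. -/
def changes : List SignType → ℕ
  | [] => 0
  | [_] => 0
  | a :: b :: l => (if a = b then 0 else 1) + changes (b :: l)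

/-- The number of reversals of a sequence of moves: for each counter, the number of changes
between increasing and decreasing (steps which leave the counter unchanged are skipped). -/
def reversals (M : Machine A) (ms : List M.Move) : ℕ :=
  ∑ j : Fin M.k, changes ((ms.map fun mv => mv.2.2 j).filter fun x => decide (x ≠ 0))

/-- `L_{Rc}(M)`: the words having a computation with at most `c` reversals which, at the end of
the input, enters a final state with all counters zero. -/
def LR (c : ℕ) (M : Machine A) : Language A :=
  {w | ∃ (ms : List M.Move) (e : Config M), Run M w (init M) ms e ∧ e.pos = w.length ∧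
    e.state ∈ M.final ∧ (∀ j, e.cnt j = 0) ∧ reversals M ms ≤ c}

/-- In every configuration at most one move is possible. -/
def Deterministic (M : Machine A) : Prop :=
  ∀ (s : M.S) (x : Option A) (v : Fin M.k → ℕ) (m m' : M.Move),
    Possible M s x v m → Possible M s x v m' → m = m'

/-- The moves never depend on whether counters are zero. -/
def PartiallyBlind (M : Machine A) : Prop :=
  ∀ (s : M.S) (x : Option A) (z z' : Fin M.k → Bool), M.moves s x z = M.moves s x z'

/-- There is a bound on the length of the stretches of computations without head move. -/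
def QuasiRealtime (M : Machine A) : Prop :=
  ∃ d : ℕ, ∀ (w : List A) (ms ms' : List M.Move) (e e' : Config M), Run M w (init M) ms e →
    Run M w e ms' e' → (∀ mv ∈ ms', mv.2.1 = false) → ms'.length ≤ d

/-- The two conventions on the end of the input: `endMoves = true` allows moves at the end of the
input (there is an end marker), `endMoves = false` allows none. -/
def Convention (endMoves : Bool) (M : Machine A) : Prop :=
  endMoves = true ∨ ∀ s z, M.moves s none z = ∅

/-- The deterministic quasi-realtime multicounter machines. -/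
def QRDCounter (endMoves : Bool) (M : Machine A) : Prop :=
  Deterministic M ∧ QuasiRealtime M ∧ Convention endMoves M

/-- The deterministic quasi-realtime partially blind multicounter machines. -/
def QRDPBlind (endMoves : Bool) (M : Machine A) : Prop :=
  PartiallyBlind M ∧ Deterministic M ∧ QuasiRealtime M ∧ Convention endMoves M

/-- `L_{Rc}` of a class `P` of machines over the alphabet `A`. -/
def classLR (A : Type) (c : ℕ) (P : Machine A → Prop) : Set (Language A) :=
  {L | ∃ M : Machine A, P M ∧ L = LR c M}

/-! ### Generalities -/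

theorem changes_append (l l' : List SignType) :
    changes (l ++ l') = changes l + changes (l.getLast?.toList ++ l') := by
  induction l with
  | nil => simp [changes]
  | cons a l ih =>
    cases l with
    | nil => simp [changes]
    | cons b l =>
      have h1 : changes (a :: b :: l ++ l') =
        (if a = b then 0 else 1) + changes (b :: l ++ l') := rfl
      have h2 : changes (a :: b :: l) = (if a = b then 0 else 1) + changes (b :: l) := rfl
      have h3 : (a :: b :: l).getLast? = (b :: l).getLast? := by simp [List.getLast?_cons_cons]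
      rw [h1, h2, h3, ih]
      ring

theorem Run.append {M : Machine A} {w : List A} {c c' c'' : Config M} {ms ms' : List M.Move}
    (h : Run M w c ms c') (h' : Run M w c' ms' c'') : Run M w c (ms ++ ms') c'' := by
  induction h with
  | nil c => exact h'
  | cons h1 _ ih => exact Run.cons h1 (ih h')

theorem Config.ext' {M : Machine A} {c c' : Config M} (h1 : c.state = c'.state)
    (h2 : c.pos = c'.pos) (h3 : ∀ j, c.cnt j = c'.cnt j) : c = c' := by
  cases c; cases c'
  simp only at h1 h2 h3
  subst h1; subst h2
  congr
  funext j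
  exact h3 j

theorem Step.unique {M : Machine A} {w w' : List A} {c c1 c2 : Config M} {mv : M.Move}
    (h1 : Step M w c mv c1) (h2 : Step M w' c mv c2) : c1 = c2 := by
  obtain ⟨-, a1, a2, a3⟩ := h1
  obtain ⟨-, b1, b2, b3⟩ := h2
  refine Config.ext' (a1.trans b1.symm) (a2.trans b2.symm) fun j => ?_
  have := (a3 j).trans (b3 j).symm
  exact_mod_cast this

theorem Run.unique {M : Machine A} {w w' : List A} {c c1 c2 : Config M} {ms : List M.Move}
    (h1 : Run M w c ms c1) (h2 : Run M w' c ms c2) : c1 = c2 := by
  induction h1 with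
  | nil c => cases h2; rfl
  | cons hs _ ih =>
    cases h2 with
    | cons hs' hr' =>
      have := Step.unique hs hs'
      subst this
      exact ih hr'

theorem Run.split {M : Machine A} {w : List A} {c c'' : Config M} {ms ms' : List M.Move}
    (h : Run M w c (ms ++ ms') c'') : ∃ c', Run M w c ms c' ∧ Run M w c' ms' c'' := by
  induction ms generalizing c with
  | nil => exact ⟨c, Run.nil c, h⟩
  | cons m ms ih =>
    cases h with
    | cons hs hr =>
      obtain ⟨c', h1, h2⟩ := ih hr
      exact ⟨c', Run.cons hs h1, h2⟩

/-- Two computations of a deterministic machine from the same configuration are comparable. -/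
theorem Run.comparable {M : Machine A} (hdet : Deterministic M) {w : List A} {c c1 c2 : Config M}
    {ms ms' : List M.Move} (h1 : Run M w c ms c1) (h2 : Run M w c ms' c2) :
    (∃ t, ms' = ms ++ t) ∨ ∃ t, ms = ms' ++ t := by
  induction h1 generalizing ms' with
  | nil c => exact Or.inl ⟨ms', rfl⟩
  | @cons c c' c'' mv ms hs hr ih =>
    cases h2 with
    | nil => exact Or.inr ⟨mv :: ms, rfl⟩
    | @cons _ d' _ mv' ms'' hs' hr' =>
      have hmv : mv = mv' := hdet _ _ _ _ _ hs.1 hs'.1
      subst hmv
      have := Step.unique hs hs'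
      subst this
      rcases ih hr' with ⟨t, ht⟩ | ⟨t, ht⟩
      · exact Or.inl ⟨t, by rw [ht]; rfl⟩
      · exact Or.inr ⟨t, by rw [ht]; rfl⟩

theorem Run.pos_le {M : Machine A} {w : List A} {c c' : Config M} {ms : List M.Move}
    (h : Run M w c ms c') : c.pos ≤ c'.pos := by
  induction h with
  | nil c => exact le_rfl
  | cons hs _ ih =>
    have := hs.2.2.1
    omega

/-- If the head position does not change, no move moves the head. -/
theorem Run.noMove {M : Machine A} {w : List A} {c c' : Config M} {ms : List M.Move}
    (h : Run M w c ms c') (hpos : c'.pos = c.pos) : ∀ mv ∈ ms, mv.2.1 = false := by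
  induction h with
  | nil c => simp
  | @cons c c1 c2 mv ms hs hr ih =>
    have h1 := hs.2.2.1
    have h2 := hr.pos_le
    have h3 : mv.2.1 = false := by
      cases hb : mv.2.1 with
      | false => rfl
      | true =>
        rw [hb] at h1
        simp at h1
        omega
    rw [h3] at h1
    simp at h1
    intro m hm
    rcases List.mem_cons.1 hm with rfl | hm
    · exact h3
    · exact ih (by omega) m hm

theorem sign_ge (s : SignType) : (-1 : ℤ) ≤ (s : ℤ) := by cases s <;> simp

/-- A counter decreases by at most the number of the steps. -/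
theorem Run.cnt_le {M : Machine A} {w : List A} {c c' : Config M} {ms : List M.Move}
    (h : Run M w c ms c') (j : Fin M.k) : c.cnt j ≤ c'.cnt j + ms.length := by
  induction h with
  | nil c => simp
  | @cons c c1 c2 mv ms hs hr ih =>
    have h1 := hs.2.2.2 j
    have h2 := sign_ge (mv.2.2 j)
    have h3 : (c.cnt j : ℤ) ≤ c1.cnt j + 1 := by omega
    simp only [List.length_cons]
    omega

/-! ### The separating language -/

/-- The word `a^n b^m`. -/
def W (a b : A) (n m : ℕ) : List A := List.replicate n a ++ List.replicate m b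

/-- The language `{a^n b^m : n ≤ m}`. -/
def Lang (a b : A) : Language A := {w | ∃ n m : ℕ, n ≤ m ∧ w = W a b n m}

theorem W_length (a b : A) (n m : ℕ) : (W a b n m).length = n + m := by simp [W]

theorem W_get_lt (a b : A) (n m i : ℕ) (h : i < n) : (W a b n m)[i]? = some a := by
  unfold W
  rw [List.getElem?_append_left (by simpa using h)]
  simp [h]

theorem W_get_ge (a b : A) (n m p : ℕ) :
    (W a b n m)[n + p]? = if p < m then some b else none := by
  unfold W
  rw [List.getElem?_append_right (by simp)]
  simp [List.getElem?_replicate]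

/-- The first arrival at the position `n`: a computation reaching position at least `n` from a
position at most `n` has an initial part all of whose steps are made at positions below `n`, and
which ends at position `n`. -/
theorem Run.arrive {M : Machine A} {a b : A} {n m : ℕ} {c c' : Config M} {ms : List M.Move}
    (h : Run M (W a b n m) c ms c') (h1 : c.pos ≤ n) (h2 : n ≤ c'.pos) :
    ∃ (ms1 ms2 : List M.Move) (x : Config M), ms = ms1 ++ ms2 ∧ x.pos = n ∧
      (∀ m' : ℕ, Run M (W a b n m') c ms1 x) ∧ Run M (W a b n m) x ms2 c' ∧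
      ∀ (t t' : List M.Move) (e : Config M) (m' : ℕ), ms1 = t ++ t' → t' ≠ [] →
        Run M (W a b n m') c t e → e.pos < n := by
  induction h with
  | nil c =>
    refine ⟨[], [], c, rfl, le_antisymm h1 h2, fun _ => Run.nil c, Run.nil c, ?_⟩
    intro t t' e m' ht ht'
    have := List.append_eq_nil_iff.1 ht.symm
    exact absurd this.2 ht'
  | @cons c c1 c2 mv ms hs hr ih =>
    rcases h1.eq_or_lt with heq | hlt
    · refine ⟨[], mv :: ms, c, rfl, heq, fun _ => Run.nil c, Run.cons hs hr, ?_⟩
      intro t t' e m' ht ht'
      have := List.append_eq_nil_iff.1 ht.symm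
      exact absurd this.2 ht'
    · have hp := hs.2.2.1
      have hle : c1.pos ≤ n := by
        split_ifs at hp <;> omega
      obtain ⟨ms1, ms2, x, rfl, hx, hr1, hr2, hlast⟩ := ih hle h2
      refine ⟨mv :: ms1, ms2, x, rfl, hx, fun m' => Run.cons ?_ (hr1 m'), hr2, ?_⟩
      · obtain ⟨⟨p1, p2, p3⟩, q⟩ := hs
        rw [W_get_lt a b n m _ hlt] at p1 p2
        refine ⟨⟨?_, ?_, p3⟩, q⟩
        · rw [W_get_lt a b n m' _ hlt]; exact p1
        · rw [W_get_lt a b n m' _ hlt]; exact p2
      · intro t t' e m' ht ht' hte
        cases t with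
        | nil => cases hte; exact hlt
        | cons mv' t =>
          simp only [List.cons_append, List.cons.injEq] at ht
          obtain ⟨rfl, ht⟩ := ht
          cases hte with
          | cons hs' hr' =>
            have := Step.unique hs hs'
            subst this
            exact hlast t t' e m' ht ht' hr'

/-- Translation of a computation of a partially blind machine on the second part of the word. -/
theorem Run.shift {M : Machine A} (hpb : PartiallyBlind M) {a b : A} {n n' m : ℕ}
    (D : Fin M.k → ℕ) {c c' : Config M} {ms : List M.Move} (h : Run M (W a b n m) c ms c')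
    (hc : n ≤ c.pos) :
    Run M (W a b n' m) ⟨c.state, n' + (c.pos - n), fun j => c.cnt j + D j⟩ ms
      ⟨c'.state, n' + (c'.pos - n), fun j => c'.cnt j + D j⟩ := by
  induction h with
  | nil c => exact Run.nil _
  | @cons c c1 c2 mv ms hs hr ih =>
    obtain ⟨⟨p1, p2, p3⟩, q1, q2, q3⟩ := hs
    have hget : (W a b n' m)[n' + (c.pos - n)]? = (W a b n m)[c.pos]? := by
      have : c.pos = n + (c.pos - n) := by omega
      rw [W_get_ge]
      conv_rhs => rw [this, W_get_ge]
    have hc1 : n ≤ c1.pos := by omega
    refine Run.cons (c' := ⟨c1.state, n' + (c1.pos - n), fun j => c1.cnt j + D j⟩) ?_ (ih hc1)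
    refine ⟨⟨?_, ?_, ?_⟩, q1, ?_, ?_⟩
    · show mv ∈ M.moves c.state (W a b n' m)[n' + (c.pos - n)]? _
      rw [hget, hpb _ _ _ (fun j => decide (c.cnt j = 0))]
      exact p1
    · show (W a b n' m)[n' + (c.pos - n)]? = none → _
      rw [hget]
      exact p2
    · intro j
      have := p3 j
      push_cast
      omega
    · show n' + (c1.pos - n) = n' + (c.pos - n) + _
      rw [q2]
      omega
    · intro j
      have := q3 j
      push_cast
      omega

/-- The information on the reversals of a sequence of moves: for each counter the number of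
changes and the last direction. -/
def info (M : Machine A) (ms : List M.Move) (j : Fin M.k) : ℕ × Option SignType :=
  (changes ((ms.map fun mv => mv.2.2 j).filter fun x => decide (x ≠ 0)),
    ((ms.map fun mv => mv.2.2 j).filter fun x => decide (x ≠ 0)).getLast?)

theorem reversals_append (M : Machine A) (ms ms' : List M.Move) :
    reversals M (ms ++ ms') = ∑ j : Fin M.k, ((info M ms j).1 +
      changes ((info M ms j).2.toList ++
        (ms'.map fun mv => mv.2.2 j).filter fun x => decide (x ≠ 0))) := by
  unfold reversals info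
  apply Finset.sum_congr rfl
  intro j _
  rw [List.map_append, List.filter_append, changes_append]

theorem info_le (M : Machine A) (ms ms' : List M.Move) (j : Fin M.k) :
    (info M ms j).1 ≤ reversals M (ms ++ ms') := by
  rw [reversals_append]
  refine le_trans ?_ (Finset.single_le_sum (fun i _ => Nat.zero_le _) (Finset.mem_univ j))
  omega

theorem W_inj {a b : A} (hab : a ≠ b) {n m n' m' : ℕ} (h : W a b n m = W a b n' m') :
    n = n' ∧ m = m' := by
  classical
  have h1 := congrArg (List.count a) h
  have h2 := congrArg List.length h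
  rw [W_length, W_length] at h2
  unfold W at h1
  rw [List.count_append, List.count_append, List.count_replicate_self, List.count_replicate_self,
    List.count_replicate, List.count_replicate] at h1
  have h3 : (b == a) = false := by simpa using Ne.symm hab
  rw [h3] at h1
  simp at h1
  omega

/-- The language `{a^n b^m : n ≤ m}` is not accepted by a deterministic quasi-realtime partially
blind machine, with any bound on the number of reversals. -/
theorem lower {a b : A} (hab : a ≠ b) (c : ℕ) (M : Machine A) (hpb : PartiallyBlind M)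
    (hdet : Deterministic M) (hqr : QuasiRealtime M) : LR c M ≠ Lang a b := by
  classical
  intro hL
  have := M.fintypeS
  obtain ⟨d, hd⟩ := hqr
  -- arrival configurations
  have harr : ∀ n : ℕ, ∃ (ms1 : List M.Move) (x : Config M), x.pos = n ∧
      (∀ j, (info M ms1 j).1 < c + 1) ∧
      (∀ m', Run M (W a b n m') (init M) ms1 x) ∧
      ∀ m, n ≤ m → ∃ (ms2 : List M.Move) (e : Config M), Run M (W a b n m) x ms2 e ∧
        e.pos = n + m ∧ e.state ∈ M.final ∧ (∀ j, e.cnt j = 0) ∧
        reversals M (ms1 ++ ms2) ≤ c := by
    intro n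
    have hmem : ∀ m, n ≤ m → W a b n m ∈ LR c M := by
      intro m hm
      rw [hL]
      exact ⟨n, m, hm, rfl⟩
    obtain ⟨ms, e, hrun, hpos, hfin, hz, hrev⟩ := hmem n le_rfl
    rw [W_length] at hpos
    obtain ⟨ms1, ms2, x, hms, hx, hr1, hr2, hlast⟩ :=
      hrun.arrive (Nat.zero_le _) (by omega : n ≤ e.pos)
    refine ⟨ms1, x, hx, ?_, hr1, ?_⟩
    · intro j
      have := info_le M ms1 ms2 j
      rw [hms] at hrev
      omega
    · intro m hm
      obtain ⟨ms', e', hrun', hpos', hfin', hz', hrev'⟩ := hmem m hm
      rw [W_length] at hpos'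
      rcases Run.comparable hdet (hr1 m) hrun' with ⟨t, ht⟩ | ⟨t, ht⟩
      · subst ht
        obtain ⟨x', h1, h2⟩ := hrun'.split
        have := (hr1 m).unique h1
        subst this
        exact ⟨t, e', h2, hpos', hfin', hz', hrev'⟩
      · -- the accepting computation is an initial part of the arrival
        cases t with
        | nil =>
          simp only [List.append_nil] at ht
          subst ht
          have := (hr1 m).unique hrun'
          subst this
          exact ⟨[], x, Run.nil x, hpos', hfin', hz', by simpa using hrev'⟩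
        | cons mv t =>
          exfalso
          have := hlast ms' (mv :: t) e' m ht (by simp) hrun'
          omega
  choose ms1 x hx hinfo hrun hacc using harr
  -- the quasi-order
  let T := M.S × (Fin M.k → Fin (c + 1) × Option SignType)
  let F : ℕ → T × (Fin M.k → ℕ) := fun n =>
    (((x n).state, fun j => (⟨(info M (ms1 n) j).1, hinfo n j⟩, (info M (ms1 n) j).2)), (x n).cnt)
  have hwqo : WellQuasiOrdered fun p q : T × (Fin M.k → ℕ) => p.1 = q.1 ∧ p.2 ≤ q.2 :=
    WellQuasiOrdered.prod (Finite.wellQuasiOrdered (· = ·)) wellQuasiOrdered_le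
  have hpre : IsPreorder (T × (Fin M.k → ℕ)) fun p q => p.1 = q.1 ∧ p.2 ≤ q.2 :=
    { refl := fun p => ⟨rfl, le_rfl⟩
      trans := fun p q r h1 h2 => ⟨h1.1.trans h2.1, h1.2.trans h2.2⟩ }
  obtain ⟨g, hg⟩ := hwqo.exists_monotone_subseq F
  -- equal counters are impossible
  have hne : ∀ i j : ℕ, i < j → (x (g i)).cnt ≠ (x (g j)).cnt := by
    intro i j hij heq
    have hlt : g i < g j := g.strictMono hij
    obtain ⟨h1, -⟩ := hg i j hij.le
    have hst : (x (g i)).state = (x (g j)).state := congrArg Prod.fst h1
    have hinf : ∀ l, info M (ms1 (g i)) l = info M (ms1 (g j)) l := by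
      intro l
      have h2 := congrFun (congrArg Prod.snd h1) l
      have h3 := congrArg (fun p : Fin (c + 1) × Option SignType => p.1.1) h2
      have h4 := congrArg (fun p : Fin (c + 1) × Option SignType => p.2) h2
      exact Prod.ext h3 h4
    obtain ⟨ms2, e, hr, hpos, hfin, hz, hrev⟩ := hacc (g i) (g i) le_rfl
    have hsh := hr.shift hpb (n' := g j) (fun _ => 0) (by rw [hx])
    have hmem : W a b (g j) (g i) ∈ LR c M := by
      refine ⟨ms1 (g j) ++ ms2, ⟨e.state, g j + (e.pos - g i), fun j => e.cnt j + 0⟩,
        (hrun (g j) (g i)).append (c' := x (g j)) ?_, ?_, hfin, ?_, ?_⟩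
      · have e1 : (⟨(x (g i)).state, g j + ((x (g i)).pos - g i),
            fun j => (x (g i)).cnt j + 0⟩ : Config M) = x (g j) := by
          refine Config.ext' hst ?_ ?_
          · show g j + ((x (g i)).pos - g i) = (x (g j)).pos
            rw [hx, hx]; omega
          · intro l
            show (x (g i)).cnt l + 0 = (x (g j)).cnt l
            rw [heq]; rfl
        rw [← e1]
        exact hsh
      · show g j + (e.pos - g i) = _
        rw [W_length, hpos]; omega
      · intro l
        show e.cnt l + 0 = 0
        rw [hz l]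
      · rw [reversals_append] at hrev ⊢
        simpa only [hinf] using hrev
    rw [hL] at hmem
    obtain ⟨n', m', hnm, hW⟩ := hmem
    have := W_inj hab hW
    omega
  -- the sum of the counters grows
  have hsum : ∀ i : ℕ, ∑ j, (x (g 0)).cnt j + i ≤ ∑ j, (x (g i)).cnt j := by
    intro i
    induction i with
    | zero => simp
    | succ i ih =>
      have h1 : (x (g i)).cnt ≤ (x (g (i + 1))).cnt := (hg i (i + 1) (Nat.le_succ i)).2
      have h2 : (x (g i)).cnt < (x (g (i + 1))).cnt :=
        lt_of_le_of_ne h1 (hne i (i + 1) (Nat.lt_succ_self i))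
      have h3 : ∑ j, (x (g i)).cnt j < ∑ j, (x (g (i + 1))).cnt j := by
        obtain ⟨_, l, hl⟩ := Pi.lt_def.1 h2
        exact Finset.sum_lt_sum (fun j _ => h1 j) ⟨l, Finset.mem_univ l, hl⟩
      omega
  obtain ⟨i, hi⟩ : ∃ i, i = M.k * d + 1 := ⟨_, rfl⟩
  have hmono : (x (g 0)).cnt ≤ (x (g i)).cnt := (hg 0 i (Nat.zero_le _)).2
  obtain ⟨l, hl⟩ : ∃ l, (x (g 0)).cnt l + d < (x (g i)).cnt l := by
    by_contra hcon
    push Not at hcon
    have h1 : ∑ j, (x (g i)).cnt j ≤ ∑ j, ((x (g 0)).cnt j + d) :=
      Finset.sum_le_sum fun j _ => hcon j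
    rw [Finset.sum_add_distrib] at h1
    simp only [Finset.sum_const, Finset.card_univ, Fintype.card_fin, smul_eq_mul] at h1
    have h2 := hsum i
    omega
  have hlt : g 0 < g i := g.strictMono (by omega)
  have hst : (x (g 0)).state = (x (g i)).state := congrArg Prod.fst (hg 0 i (Nat.zero_le _)).1
  obtain ⟨ms2, e, hr, hpos, hfin, hz, hrev⟩ := hacc (g 0) (g i) hlt.le
  obtain ⟨ms3, e', hr', hpos', hfin', hz', hrev'⟩ := hacc (g i) (g i) le_rfl
  have hsh := hr.shift hpb (n' := g i) (fun j => (x (g i)).cnt j - (x (g 0)).cnt j) (by rw [hx])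
  have e1 : (⟨(x (g 0)).state, g i + ((x (g 0)).pos - g 0),
      fun j => (x (g 0)).cnt j + ((x (g i)).cnt j - (x (g 0)).cnt j)⟩ : Config M) = x (g i) := by
    refine Config.ext' hst ?_ ?_
    · show g i + ((x (g 0)).pos - g 0) = (x (g i)).pos
      rw [hx, hx]; omega
    · intro j
      show (x (g 0)).cnt j + ((x (g i)).cnt j - (x (g 0)).cnt j) = (x (g i)).cnt j
      have h0 : (x (g 0)).cnt j ≤ (x (g i)).cnt j := hmono j
      omega
  rw [e1] at hsh
  rcases Run.comparable hdet hsh hr' with ⟨t, ht⟩ | ⟨t, ht⟩
  · -- the shifted computation is an initial part of the accepting one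
    subst ht
    obtain ⟨y, h1, h2⟩ := hr'.split
    have h3 := hsh.unique h1
    subst h3
    have h4 := h2.noMove (by
      show e'.pos = g i + (e.pos - g 0)
      rw [hpos', hpos]; omega)
    have h5 := hd _ _ _ _ _ ((hrun (g i) (g i)).append h1) h2 h4
    have h6 := h2.cnt_le l
    rw [hz' l] at h6
    have h7 : (x (g i)).cnt l - (x (g 0)).cnt l ≤ 0 + t.length := le_trans (by
      show (x (g i)).cnt l - (x (g 0)).cnt l ≤ e.cnt l + ((x (g i)).cnt l - (x (g 0)).cnt l)
      omega) h6
    omega
  · -- the accepting computation is an initial part of the shifted one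
    subst ht
    obtain ⟨y, h1, h2⟩ := hr.split
    have hsh1 := h1.shift hpb (n' := g i) (fun j => (x (g i)).cnt j - (x (g 0)).cnt j)
      (by rw [hx])
    rw [e1] at hsh1
    have h3 := hsh1.unique hr'
    have h4 : y.cnt l + ((x (g i)).cnt l - (x (g 0)).cnt l) = e'.cnt l :=
      congrArg (fun z : Config M => z.cnt l) h3
    rw [hz' l] at h4
    omega

/-! ### The counter machine for the separating language -/

open Classical in
/-- The moves of the counter machine: state `0` reads letters `a` and counts up, state `1` reads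
letters `b` and counts down, state `2` reads letters `b` after the counter has been found empty. -/
noncomputable def cmMoves (a b : A) (s : Fin 3) (x : Option A) (z : Fin 1 → Bool) :
    Set (Fin 3 × Bool × (Fin 1 → SignType)) :=
  if x = some a ∧ s = 0 then {(0, true, fun _ => 1)}
  else if x = some b ∧ s ≠ 2 ∧ z 0 = false then {(1, true, fun _ => -1)}
  else if x = some b then {(2, true, fun _ => 0)}
  else ∅

/-- The counter machine. -/
noncomputable abbrev counterMachine (a b : A) : Machine A where
  S := Fin 3
  k := 1
  start := 0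
  final := Set.univ
  moves := cmMoves a b

theorem mem_cm {a b : A} {s : Fin 3} {x : Option A} {z : Fin 1 → Bool}
    {mv : Fin 3 × Bool × (Fin 1 → SignType)} : mv ∈ cmMoves a b s x z ↔
      (x = some a ∧ s = 0 ∧ mv = (0, true, fun _ => 1)) ∨
      (¬ (x = some a ∧ s = 0) ∧ x = some b ∧ s ≠ 2 ∧ z 0 = false ∧
        mv = (1, true, fun _ => -1)) ∨
      (¬ (x = some a ∧ s = 0) ∧ ¬ (x = some b ∧ s ≠ 2 ∧ z 0 = false) ∧ x = some b ∧
        mv = (2, true, fun _ => 0)) := by
  unfold cmMoves
  split_ifs with h1 h2 h3
  · rw [Set.mem_singleton_iff]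
    constructor
    · intro h; exact Or.inl ⟨h1.1, h1.2, h⟩
    · rintro (⟨-, -, h⟩ | ⟨h, -⟩ | ⟨h, -⟩)
      · exact h
      · exact absurd h1 h
      · exact absurd h1 h
  · rw [Set.mem_singleton_iff]
    constructor
    · intro h; exact Or.inr (Or.inl ⟨h1, h2.1, h2.2.1, h2.2.2, h⟩)
    · rintro (⟨h, h', -⟩ | ⟨-, -, -, -, h⟩ | ⟨-, h, -⟩)
      · exact absurd ⟨h, h'⟩ h1
      · exact h
      · exact absurd h2 h
  · rw [Set.mem_singleton_iff]
    constructor
    · intro h; exact Or.inr (Or.inr ⟨h1, h2, h3, h⟩)
    · rintro (⟨h, h', -⟩ | ⟨-, h, h', h'', -⟩ | ⟨-, -, -, h⟩)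
      · exact absurd ⟨h, h'⟩ h1
      · exact absurd ⟨h, h', h''⟩ h2
      · exact h
  · constructor
    · intro h; exact absurd h (Set.notMem_empty _)
    · rintro (⟨h, h', -⟩ | ⟨-, h, h', h'', -⟩ | ⟨-, -, h, -⟩)
      · exact absurd ⟨h, h'⟩ h1
      · exact absurd ⟨h, h', h''⟩ h2
      · exact absurd h h3

theorem mem_moves {a b : A} {s : (counterMachine a b).S} {x : Option A}
    {z : Fin (counterMachine a b).k → Bool} {mv : (counterMachine a b).Move} :
    mv ∈ (counterMachine a b).moves s x z ↔
      (x = some a ∧ s = (0 : Fin 3) ∧ mv = ((0 : Fin 3), true, fun _ => 1)) ∨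
      (¬ (x = some a ∧ s = (0 : Fin 3)) ∧ x = some b ∧ s ≠ (2 : Fin 3) ∧
        z (0 : Fin 1) = false ∧ mv = ((1 : Fin 3), true, fun _ => -1)) ∨
      (¬ (x = some a ∧ s = (0 : Fin 3)) ∧
        ¬ (x = some b ∧ s ≠ (2 : Fin 3) ∧ z (0 : Fin 1) = false) ∧ x = some b ∧
        mv = ((2 : Fin 3), true, fun _ => 0)) := by
  exact mem_cm (a := a) (b := b) (s := s) (x := x) (z := z) (mv := mv)

theorem counterMachine_det (a b : A) : Deterministic (counterMachine a b) := by
  intro s x v m m' h h'
  have h1 := mem_moves.1 h.1
  have h2 := mem_moves.1 h'.1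
  rcases h1 with ⟨g1, g2, g3⟩ | ⟨g1, g2, g3, g4, g5⟩ | ⟨g1, g2, g3, g4⟩ <;>
  rcases h2 with ⟨k1, k2, k3⟩ | ⟨k1, k2, k3, k4, k5⟩ | ⟨k1, k2, k3, k4⟩
  · rw [g3, k3]
  · exact absurd ⟨g1, g2⟩ k1
  · exact absurd ⟨g1, g2⟩ k1
  · exact absurd ⟨k1, k2⟩ g1
  · rw [g5, k5]
  · exact absurd ⟨g2, g3, g4⟩ k2
  · exact absurd ⟨k1, k2⟩ g1
  · exact absurd ⟨k2, k3, k4⟩ g2
  · rw [g4, k4]

theorem counterMachine_head {a b : A} {s : (counterMachine a b).S} {x : Option A}
    {z : Fin (counterMachine a b).k → Bool} {mv : (counterMachine a b).Move}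
    (h : mv ∈ (counterMachine a b).moves s x z) : mv.2.1 = true := by
  rcases mem_moves.1 h with ⟨g1, g2, g3⟩ | ⟨g1, g2, g3, g4, g5⟩ | ⟨g1, g2, g3, g4⟩
  · rw [g3]
  · rw [g5]
  · rw [g4]

theorem counterMachine_qr (a b : A) : QuasiRealtime (counterMachine a b) := by
  refine ⟨0, ?_⟩
  intro w ms ms' e e' _ h2 h3
  cases h2 with
  | nil => simp
  | cons hs _ =>
    have h4 := counterMachine_head hs.1.1
    have h5 := h3 _ List.mem_cons_self
    rw [h4] at h5
    exact absurd h5 (by simp)

theorem counterMachine_end (a b : A) (s : Fin 3) (z : Fin 1 → Bool) :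
    cmMoves a b s none z = ∅ := by
  simp [cmMoves]

/-- The invariant of the counter machine: state `s`, position `p`, counter `v`. -/
def Inva (a b : A) (w : List A) (s : Fin 3) (p v : ℕ) : Prop :=
  p ≤ w.length ∧ ∃ n m : ℕ, w.take p = W a b n m ∧
    ((s = 0 ∧ m = 0 ∧ v = n) ∨ (s = 1 ∧ v + m = n) ∨ (s = 2 ∧ n ≤ m ∧ v = 0))

theorem W_snoc_a (a b : A) (n : ℕ) : W a b n 0 ++ [a] = W a b (n + 1) 0 := by
  simp [W, List.replicate_succ']

theorem W_snoc_b (a b : A) (n m : ℕ) : W a b n m ++ [b] = W a b n (m + 1) := by
  simp [W, List.replicate_succ']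

theorem inva_step {a b : A} {w : List A} {c c' : Config (counterMachine a b)}
    {mv : (counterMachine a b).Move} (h : Inva a b w c.state c.pos (c.cnt (0 : Fin 1)))
    (hs : Step _ w c mv c') : Inva a b w c'.state c'.pos (c'.cnt (0 : Fin 1)) := by
  obtain ⟨⟨p1, p2, p3⟩, q1, q2, q3⟩ := hs
  obtain ⟨hle, n, m, htake, hcase⟩ := h
  have hhead := counterMachine_head p1
  rw [hhead] at q2
  simp only [if_true] at q2
  have hlt : c.pos < w.length := by
    by_contra hcon
    have : w[c.pos]? = none := List.getElem?_eq_none (by omega)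
    rw [p2 this] at hhead
    exact absurd hhead (by simp)
  have hget : w[c.pos]? = some w[c.pos] := List.getElem?_eq_getElem hlt
  have htake' : w.take c'.pos = w.take c.pos ++ [w[c.pos]] := by
    rw [q2, List.take_add_one, hget]
    rfl
  refine ⟨by omega, ?_⟩
  rw [hget] at p1
  have q3' := q3 (0 : Fin 1)
  rcases mem_moves.1 p1 with ⟨g1, g2, g3⟩ | ⟨g1, g2, g3, g4, g5⟩ | ⟨g1, g2, g3, g4⟩
  · subst g3
    have g1' := Option.some.inj g1
    have q4 : (c'.cnt (0 : Fin 1) : ℤ) = c.cnt (0 : Fin 1) + 1 := q3'
    rcases hcase with ⟨h1, rfl, h2⟩ | ⟨h1, -⟩ | ⟨h1, -⟩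
    · refine ⟨n + 1, 0, ?_, Or.inl ⟨q1, rfl, ?_⟩⟩
      · rw [htake', htake, g1', W_snoc_a]
      · omega
    · exact absurd (g2.symm.trans h1) (by decide : ¬ (0 : Fin 3) = 1)
    · exact absurd (g2.symm.trans h1) (by decide : ¬ (0 : Fin 3) = 2)
  · subst g5
    have g2' := Option.some.inj g2
    have hc0 : c.cnt (0 : Fin 1) ≠ 0 := by
      intro h0
      have : decide (c.cnt (0 : Fin 1) = 0) = true := by
        rw [decide_eq_true_eq]; exact h0
      exact absurd (this.symm.trans g4) (by simp)
    have q4 : (c'.cnt (0 : Fin 1) : ℤ) = c.cnt (0 : Fin 1) + -1 := q3'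
    refine ⟨n, m + 1, by rw [htake', htake, g2', W_snoc_b], Or.inr (Or.inl ⟨q1, ?_⟩)⟩
    rcases hcase with ⟨h1, rfl, h2⟩ | ⟨h1, h2⟩ | ⟨h1, -⟩
    · omega
    · omega
    · exact absurd h1 g3
  · subst g4
    have g3' := Option.some.inj g3
    have q4 : (c'.cnt (0 : Fin 1) : ℤ) = c.cnt (0 : Fin 1) + 0 := q3'
    refine ⟨n, m + 1, by rw [htake', htake, g3', W_snoc_b], Or.inr (Or.inr ⟨q1, ?_⟩)⟩
    have hz : c.state ≠ (2 : Fin 3) → c.cnt (0 : Fin 1) = 0 := by
      intro hne
      by_contra h0
      apply g2
      refine ⟨g3, hne, ?_⟩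
      show decide (c.cnt (0 : Fin 1) = 0) = false
      rw [decide_eq_false_iff_not]
      exact h0
    rcases hcase with ⟨h1, rfl, h2⟩ | ⟨h1, h2⟩ | ⟨h1, h2, h3⟩
    · have := hz (by rw [h1]; exact (by decide : (0 : Fin 3) ≠ 2))
      exact ⟨by omega, by omega⟩
    · have := hz (by rw [h1]; exact (by decide : (1 : Fin 3) ≠ 2))
      exact ⟨by omega, by omega⟩
    · exact ⟨by omega, by omega⟩

theorem inva_run {a b : A} {w : List A} {c c' : Config (counterMachine a b)}
    {ms : List (counterMachine a b).Move} (hr : Run _ w c ms c')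
    (h : Inva a b w c.state c.pos (c.cnt (0 : Fin 1))) :
    Inva a b w c'.state c'.pos (c'.cnt (0 : Fin 1)) := by
  induction hr with
  | nil c => exact h
  | cons hs _ ih => exact ih (inva_step h hs)

theorem counter_sound (a b : A) (c : ℕ) :
    LR c (counterMachine a b) ≤ Lang a b := by
  rintro w ⟨ms, e, hrun, hpos, -, hz, -⟩
  obtain ⟨-, n, m, htake, hcase⟩ := inva_run hrun
    (⟨Nat.zero_le _, 0, 0, rfl, Or.inl ⟨rfl, rfl, rfl⟩⟩ : Inva a b w 0 0 0)
  rw [hpos, List.take_length] at htake
  have hz0 := hz (0 : Fin 1)
  have hnm : n ≤ m := by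
    rcases hcase with ⟨h1, h2, h3⟩ | ⟨h1, h2⟩ | ⟨h1, h2, h3⟩
    · omega
    · omega
    · exact h2
  exact ⟨n, m, hnm, htake⟩

/-- The computation on the letters `a`. -/
theorem run_a (a b : A) (n m : ℕ) : ∀ i, i ≤ n → Run (counterMachine a b) (W a b n m)
    (init (counterMachine a b)) (List.replicate i ((0 : Fin 3), true, fun _ => 1))
    ⟨(0 : Fin 3), i, fun _ => i⟩ := by
  intro i
  induction i with
  | zero => intro _; exact Run.nil _
  | succ i ih =>
    intro hi
    rw [List.replicate_succ']
    refine (ih (by omega)).append (Run.cons (c' := ⟨(0 : Fin 3), i + 1, fun _ => i + 1⟩) ?_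
      (Run.nil _))
    refine ⟨⟨?_, ?_, ?_⟩, rfl, rfl, ?_⟩
    · refine mem_moves.2 (Or.inl ⟨?_, rfl, rfl⟩)
      exact W_get_lt a b n m i (by omega)
    · show (W a b n m)[i]? = none → _
      rw [W_get_lt a b n m i (by omega)]
      simp
    · intro j
      show (0 : ℤ) ≤ (i : ℤ) + 1
      omega
    · intro j
      show ((i + 1 : ℕ) : ℤ) = (i : ℤ) + 1
      simp

/-- The computation on the first letters `b`, counting down. -/
theorem run_b1 {a b : A} (hab : a ≠ b) (n m : ℕ) (h : n ≤ m) : ∀ i, i ≤ n →
    ∃ s : Fin 3, s ≠ 2 ∧ Run (counterMachine a b) (W a b n m)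
      ⟨(0 : Fin 3), n, fun _ => n⟩ (List.replicate i ((1 : Fin 3), true, fun _ => -1))
      ⟨s, n + i, fun _ => n - i⟩ := by
  intro i
  induction i with
  | zero => intro _; exact ⟨0, by decide, Run.nil _⟩
  | succ i ih =>
    intro hi
    obtain ⟨s, hs, hr⟩ := ih (by omega)
    refine ⟨1, by decide, ?_⟩
    rw [List.replicate_succ']
    refine hr.append (Run.cons (c' := ⟨(1 : Fin 3), n + (i + 1), fun _ => n - (i + 1)⟩) ?_
      (Run.nil _))
    have hget : (W a b n m)[n + i]? = some b := by
      rw [W_get_ge, if_pos (by omega)]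
    refine ⟨⟨?_, ?_, ?_⟩, rfl, rfl, ?_⟩
    · refine mem_moves.2 (Or.inr (Or.inl ⟨?_, hget, hs, ?_, rfl⟩))
      · rintro ⟨h1, -⟩
        exact hab (Option.some.inj (h1.symm.trans hget))
      · show decide (n - i = 0) = false
        rw [decide_eq_false_iff_not]; omega
    · show (W a b n m)[n + i]? = none → _
      rw [hget]
      simp
    · intro j
      show (0 : ℤ) ≤ ((n - i : ℕ) : ℤ) + -1
      omega
    · intro j
      show ((n - (i + 1) : ℕ) : ℤ) = ((n - i : ℕ) : ℤ) + -1
      omega

/-- The computation on the last letters `b`. -/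
theorem run_b2 {a b : A} (hab : a ≠ b) (n m : ℕ) (s : Fin 3) : ∀ i, n + i ≤ m →
    ∃ s' : Fin 3, Run (counterMachine a b) (W a b n m)
      ⟨s, n + n, fun _ => 0⟩ (List.replicate i ((2 : Fin 3), true, fun _ => 0))
      ⟨s', n + n + i, fun _ => 0⟩ := by
  intro i
  induction i with
  | zero => intro _; exact ⟨s, Run.nil _⟩
  | succ i ih =>
    intro hi
    obtain ⟨s', hr⟩ := ih (by omega)
    refine ⟨2, ?_⟩
    rw [List.replicate_succ']
    refine hr.append (Run.cons (c' := ⟨(2 : Fin 3), n + n + (i + 1), fun _ => 0⟩) ?_
      (Run.nil _))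
    have hget : (W a b n m)[n + n + i]? = some b := by
      rw [Nat.add_assoc, W_get_ge, if_pos (by omega)]
    refine ⟨⟨?_, ?_, ?_⟩, rfl, rfl, ?_⟩
    · refine mem_moves.2 (Or.inr (Or.inr ⟨?_, ?_, hget, rfl⟩))
      · rintro ⟨h1, -⟩
        exact hab (Option.some.inj (h1.symm.trans hget))
      · rintro ⟨-, -, h⟩
        exact absurd h (by simp)
    · show (W a b n m)[n + n + i]? = none → _
      rw [hget]
      simp
    · intro j
      show (0 : ℤ) ≤ ((0 : ℕ) : ℤ) + 0
      simp
    · intro j
      show ((0 : ℕ) : ℤ) = ((0 : ℕ) : ℤ) + 0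
      simp

theorem changes_replicate (n : ℕ) (x : SignType) : changes (List.replicate n x) = 0 := by
  induction n with
  | zero => rfl
  | succ n ih =>
    cases n with
    | zero => rfl
    | succ n =>
      rw [List.replicate_succ, List.replicate_succ, changes, ← List.replicate_succ, ih]
      simp

theorem changes_two (n m : ℕ) (x y : SignType) :
    changes (List.replicate n x ++ List.replicate m y) ≤ 1 := by
  rw [changes_append, changes_replicate, Nat.zero_add]
  cases n with
  | zero => simp [changes_replicate]
  | succ n =>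
    have : (List.replicate (n + 1) x).getLast? = some x := by
      rw [List.replicate_succ', List.getLast?_append]
      rfl
    rw [this]
    cases m with
    | zero => simp [changes]
    | succ m =>
      show changes (x :: List.replicate (m + 1) y) ≤ 1
      rw [List.replicate_succ, changes, ← List.replicate_succ, changes_replicate]
      split_ifs <;> simp

theorem counter_complete {a b : A} (hab : a ≠ b) (c : ℕ) (hc : 1 ≤ c) :
    Lang a b ≤ LR c (counterMachine a b) := by
  rintro w ⟨n, m, hnm, rfl⟩
  have h1 := run_a a b n m n le_rfl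
  obtain ⟨s, hs, h2⟩ := run_b1 hab n m hnm n le_rfl
  have h3 : (⟨s, n + n, fun _ => n - n⟩ : Config (counterMachine a b)) =
      ⟨s, n + n, fun _ => 0⟩ := by simp
  rw [h3] at h2
  obtain ⟨s', h4⟩ := run_b2 hab n m s (m - n) (by omega)
  refine ⟨_, _, (h1.append h2).append h4, ?_, Set.mem_univ _, fun _ => rfl, ?_⟩
  · show n + n + (m - n) = _
    rw [W_length]
    omega
  · refine le_trans ?_ hc
    unfold reversals
    rw [Fin.sum_univ_one]
    simp only [List.map_append, List.map_replicate, List.filter_append]
    have e1 : (List.replicate n (1 : SignType)).filter (fun x => decide (x ≠ 0)) =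
        List.replicate n 1 := by
      rw [List.filter_eq_self]
      intro x hx
      rw [List.eq_of_mem_replicate hx]
      decide
    have e2 : (List.replicate n (-1 : SignType)).filter (fun x => decide (x ≠ 0)) =
        List.replicate n (-1) := by
      rw [List.filter_eq_self]
      intro x hx
      rw [List.eq_of_mem_replicate hx]
      decide
    have e3 : (List.replicate (m - n) (0 : SignType)).filter (fun x => decide (x ≠ 0)) = [] := by
      rw [List.filter_eq_nil_iff]
      intro x hx
      rw [List.eq_of_mem_replicate hx]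
      decide
    rw [e1, e2, e3, List.append_nil]
    exact changes_two n n _ _

/-! ### No reversals -/

/-- The machine which makes only the moves that leave the counters unchanged, as if all counters
were zero. -/
abbrev flat (M : Machine A) : Machine A :=
  { M with
    fintypeS := M.fintypeS
    moves := fun s x _ => {mv | mv ∈ M.moves s x (fun _ => true) ∧ mv.2.2 = fun _ => 0} }

theorem flat_pb (M : Machine A) : PartiallyBlind (flat M) := fun _ _ _ _ => rfl

theorem flat_det {M : Machine A} (h : Deterministic M) : Deterministic (flat M) := by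
  intro s x v m m' h1 h2
  refine h s x (fun _ => 0) m m' ⟨?_, h1.2.1, ?_⟩ ⟨?_, h2.2.1, ?_⟩
  · have := h1.1.1
    simpa using this
  · intro j
    have := h1.1.2
    rw [this]
    simp
  · have := h2.1.1
    simpa using this
  · intro j
    have := h2.1.2
    rw [this]
    simp

/-- The same configuration, seen as a configuration of `flat M`. -/
abbrev fc {M : Machine A} (c : Config M) : Config (flat M) := ⟨c.state, c.pos, c.cnt⟩

/-- The same configuration, seen as a configuration of `M`. -/
abbrev cf {M : Machine A} (c : Config (flat M)) : Config M := ⟨c.state, c.pos, c.cnt⟩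

theorem step_cf {M : Machine A} {w : List A} {c c' : Config (flat M)} {mv : M.Move}
    (h : Step (flat M) w c mv c') (hc : ∀ j, c.cnt j = 0) :
    Step M w (cf c) mv (cf c') ∧ (∀ j, c'.cnt j = 0) ∧ mv.2.2 = fun _ => 0 := by
  obtain ⟨⟨p1, p2, p3⟩, q1, q2, q3⟩ := h
  have hz : mv.2.2 = fun _ => 0 := p1.2
  refine ⟨⟨⟨?_, p2, p3⟩, q1, q2, q3⟩, ?_, hz⟩
  · have h1 : mv ∈ M.moves c.state w[c.pos]? (fun _ => true) := p1.1
    show mv ∈ M.moves c.state w[c.pos]? (fun j => decide (c.cnt j = 0))
    have h2 : (fun j => decide (c.cnt j = 0)) = fun _ : Fin M.k => true := by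
      funext j
      rw [hc j]
      rfl
    rw [h2]
    exact h1
  · intro j
    have h1 : (c'.cnt j : ℤ) = (c.cnt j : ℤ) + (mv.2.2 j : ℤ) := q3 j
    rw [hz] at h1
    have h2 : (c'.cnt j : ℤ) = (c.cnt j : ℤ) + 0 := h1
    have h3 := hc j
    omega

theorem run_cf {M : Machine A} {w : List A} {c c' : Config (flat M)} {ms : List M.Move}
    (h : Run (flat M) w c ms c') (hc : ∀ j, c.cnt j = 0) :
    Run M w (cf c) ms (cf c') ∧ (∀ j, c'.cnt j = 0) ∧ ∀ mv ∈ ms, mv.2.2 = fun _ => 0 := by
  induction h with
  | nil c => exact ⟨Run.nil _, hc, by simp⟩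
  | cons hs hr ih =>
    obtain ⟨a1, a2, a3⟩ := step_cf hs hc
    obtain ⟨r1, r2, r3⟩ := ih a2
    refine ⟨Run.cons a1 r1, r2, ?_⟩
    intro m hm
    rcases List.mem_cons.1 hm with rfl | hm
    · exact a3
    · exact r3 m hm

theorem run_fc {M : Machine A} {w : List A} {c c' : Config M} {ms : List M.Move}
    (h : Run M w c ms c') (hc : ∀ j, c.cnt j = 0) (hms : ∀ mv ∈ ms, mv.2.2 = fun _ => 0) :
    Run (flat M) w (fc c) ms (fc c') := by
  induction h with
  | nil c => exact Run.nil _
  | @cons c c1 c2 mv ms hs hr ih =>
    obtain ⟨⟨p1, p2, p3⟩, q1, q2, q3⟩ := hs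
    have hz : mv.2.2 = fun _ => 0 := hms mv List.mem_cons_self
    have hc1 : ∀ j, c1.cnt j = 0 := by
      intro j
      have h1 := q3 j
      rw [hz] at h1
      have h2 : (c1.cnt j : ℤ) = (c.cnt j : ℤ) + 0 := h1
      have h3 := hc j
      omega
    refine Run.cons (c' := fc c1) ⟨⟨⟨?_, hz⟩, p2, p3⟩, q1, q2, q3⟩
      (ih hc1 fun m hm => hms m (List.mem_cons_of_mem _ hm))
    have h2 : (fun j => decide (c.cnt j = 0)) = fun _ : Fin M.k => true := by
      funext j
      rw [hc j]
      rfl
    show mv ∈ M.moves c.state w[c.pos]? (fun _ => true)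
    rw [← h2]
    exact p1

theorem flat_qr {M : Machine A} (h : QuasiRealtime M) : QuasiRealtime (flat M) := by
  obtain ⟨d, hd⟩ := h
  refine ⟨d, ?_⟩
  intro w ms ms' e e' h1 h2 h3
  obtain ⟨r1, r2, r3⟩ := run_cf h1 (fun _ => rfl)
  obtain ⟨s1, s2, s3⟩ := run_cf h2 r2
  exact hd w ms ms' _ _ r1 s1 h3

theorem flat_conv {M : Machine A} {e : Bool} (h : Convention e M) : Convention e (flat M) := by
  rcases h with h | h
  · exact Or.inl h
  · refine Or.inr fun s z => ?_
    have := h s (fun _ => true)
    show {mv | mv ∈ M.moves s none (fun _ => true) ∧ mv.2.2 = fun _ => 0} = ∅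
    rw [this]
    simp

/-- If a sequence of nonzero signs has no change and starts up, it is constant up. -/
theorem changes_zero {l : List SignType} {x : SignType} (h : changes (x :: l) = 0) :
    ∀ y ∈ l, y = x := by
  induction l generalizing x with
  | nil => simp
  | cons y l ih =>
    rw [changes] at h
    have h1 : x = y := by
      by_contra hne
      rw [if_neg hne] at h
      omega
    subst h1
    have h2 := ih (x := x) (by
      rw [if_pos rfl] at h
      omega)
    intro z hz
    rcases List.mem_cons.1 hz with rfl | hz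
    · rfl
    · exact h2 z hz

/-- The value of a counter at the end of a computation. -/
theorem Run.cnt_eq {M : Machine A} {w : List A} {c c' : Config M} {ms : List M.Move}
    (h : Run M w c ms c') (j : Fin M.k) :
    (c'.cnt j : ℤ) = c.cnt j + (((ms.map fun mv => mv.2.2 j).filter
      fun x => decide (x ≠ 0)).map fun s : SignType => (s : ℤ)).sum := by
  induction h with
  | nil c => simp
  | @cons c c1 c2 mv ms hs hr ih =>
    have h1 := hs.2.2.2 j
    rw [ih, h1, List.map_cons, List.filter_cons]
    by_cases hz : mv.2.2 j = 0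
    · rw [hz]; simp
    · rw [if_pos (by simpa using hz)]
      rw [List.map_cons, List.sum_cons]
      ring

/-- A sequence of nonzero signs without change whose sum is zero is empty. -/
theorem nil_of_changes {l : List SignType} (h0 : ∀ x ∈ l, x ≠ 0) (h : changes l = 0)
    (hs : (l.map fun s : SignType => (s : ℤ)).sum = 0) : l = [] := by
  cases l with
  | nil => rfl
  | cons x l =>
    exfalso
    have h1 := changes_zero h
    have h2 : x :: l = List.replicate (l.length + 1) x := by
      rw [List.eq_replicate_iff]
      refine ⟨by simp, ?_⟩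
      intro y hy
      rcases List.mem_cons.1 hy with rfl | hy
      · rfl
      · exact h1 y hy
    rw [h2, List.map_replicate, List.sum_replicate, nsmul_eq_mul] at hs
    rcases mul_eq_zero.1 hs with hs | hs
    · have : ((l.length + 1 : ℕ) : ℤ) ≠ 0 := by positivity
      exact this hs
    · have hx := h0 x List.mem_cons_self
      cases x
      · exact hx rfl
      · simp at hs
      · simp at hs

theorem LR_flat (M : Machine A) : LR 0 (flat M) = LR 0 M := by
  ext w
  constructor
  · rintro ⟨ms, e, hrun, hpos, hfin, hz, hrev⟩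
    obtain ⟨r1, r2, r3⟩ := run_cf hrun (fun _ => rfl)
    exact ⟨ms, cf e, r1, hpos, hfin, hz, hrev⟩
  · rintro ⟨ms, e, hrun, hpos, hfin, hz, hrev⟩
    refine ⟨ms, fc e, run_fc hrun (fun _ => rfl) ?_, hpos, hfin, hz, hrev⟩
    intro mv hmv
    funext j
    have h1 : changes ((ms.map fun mv => mv.2.2 j).filter fun x => decide (x ≠ 0)) = 0 := by
      have := Nat.le_zero.1 hrev
      exact (Finset.sum_eq_zero_iff.1 this) j (Finset.mem_univ j)
    have h2 := hrun.cnt_eq j
    rw [hz j] at h2
    have h3 : (((ms.map fun mv => mv.2.2 j).filter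
      fun x => decide (x ≠ 0)).map fun s : SignType => (s : ℤ)).sum = 0 := by
      have : (((init M).cnt j : ℕ) : ℤ) = 0 := rfl
      rw [this] at h2
      simpa using h2.symm
    have h4 := nil_of_changes (by
      intro x hx
      simpa using (List.mem_filter.1 hx).2) h1 h3
    rw [List.filter_eq_nil_iff] at h4
    have h5 := h4 (mv.2.2 j) (List.mem_map.2 ⟨mv, hmv, rfl⟩)
    simpa using h5

/-- **Main result.**  Under both conventions on the end of the input: for `c = 0` the classes
`L_{Rc}(QR-DPBLIND)` and `L_{Rc}(QR-DCOUNTER)` are equal, and for every `c ≥ 1` and every alphabet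
with at least two letters the first class is a proper subclass of the second. -/
theorem result (endMoves : Bool) :
    (∀ A : Type, classLR A 0 (QRDPBlind endMoves) = classLR A 0 (QRDCounter endMoves)) ∧
      ∀ c : ℕ, 1 ≤ c → ∀ A : Type, Nontrivial A →
        classLR A c (QRDPBlind endMoves) ⊂ classLR A c (QRDCounter endMoves) := by
  refine ⟨fun A => ?_, fun c hc A hA => ?_⟩
  · apply Set.Subset.antisymm
    · rintro L ⟨M, ⟨-, h1, h2, h3⟩, rfl⟩
      exact ⟨M, ⟨h1, h2, h3⟩, rfl⟩
    · rintro L ⟨M, ⟨h1, h2, h3⟩, rfl⟩
      exact ⟨flat M, ⟨flat_pb M, flat_det h1, flat_qr h2, flat_conv h3⟩, (LR_flat M).symm⟩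
  · obtain ⟨a, b, hab⟩ := hA
    refine ⟨?_, ?_⟩
    · rintro L ⟨M, ⟨-, h1, h2, h3⟩, rfl⟩
      exact ⟨M, ⟨h1, h2, h3⟩, rfl⟩
    · intro hsub
      have h1 : Lang a b ∈ classLR A c (QRDCounter endMoves) := by
        refine ⟨counterMachine a b, ⟨counterMachine_det a b, counterMachine_qr a b,
          Or.inr (counterMachine_end a b)⟩, ?_⟩
        exact le_antisymm (counter_complete hab c hc) (counter_sound a b c)
      obtain ⟨M, ⟨p1, p2, p3, -⟩, p5⟩ := hsub h1
      exact lower hab c M p1 p2 p3 p5.symm

end Pool.Agent.Results.MP_24384b_lc.BlindCounters
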